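import Pool.Agent.SG.ExtLocal
import Pool.Agent.SG.ExtAssembly
import Pool.Agent.SG.IntLocal
import Pool.Agent.SG.IntAssembly

/-!
# Singmaster's problem: every integer `a ≥ 2` occurs `O(sqrt (log a))` times in Pascal's triangle
-/

namespace Pool.Agent.Results.MP_600e5a_nt.SqrtBound

open Pool.Agent.SG

/-- There is a constant `C` such that every integer `a ≥ 2` occurs at most
`C * sqrt (log a)` times in Pascal's triangle. -/
theorem result : ∃ C : ℝ, ∀ a : ℕ, 2 ≤ a →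
    {p : ℕ × ℕ | p.2 ≤ p.1 ∧ p.1.choose p.2 = a}.Finite ∧
      ({p : ℕ × ℕ | p.2 ≤ p.1 ∧ p.1.choose p.2 = a}.ncard : ℝ)
        ≤ C * Real.sqrt (Real.log a) := by
  obtain ⟨X₀, hX₀⟩ := ext_local
  obtain ⟨C₁, hC₁⟩ := ext_assembly X₀
  obtain ⟨L₀, c, C, hc, hC⟩ := int_local
  obtain ⟨C₂, hC₂⟩ := int_assembly L₀ c C hc hC
  refine ⟨2 * (C₁ + C₂), final_assembly (C₁ + C₂) ?_⟩
  intro a ha F hF
  have hL : 1 / 2 ≤ Real.log a := by
    have h2 : Real.log 2 ≤ Real.log a := by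
      apply Real.log_le_log (by norm_num)
      exact_mod_cast ha
    have := Real.log_two_gt_d9
    linarith
  classical
  set F₁ := F.filter (fun k : ℕ => 500 * (k : ℝ) ≤ Real.log a) with hF₁
  set F₂ := F.filter (fun k : ℕ => ¬ 500 * (k : ℝ) ≤ Real.log a) with hF₂
  have hcard : F.card = F₁.card + F₂.card := by
    rw [hF₁, hF₂]
    exact (Finset.card_filter_add_card_filter_not _).symm
  have h1 : (F₁.card : ℝ) ≤ C₁ * Real.sqrt (Real.log a) := by
    refine hC₁ (Real.log a) hL F₁ (fun k hk => (Finset.mem_filter.mp hk).2) ?_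
    intro x₀ σ hx1 hx2 hx3 hσ1 hσ2 hσ3
    refine hX₀ x₀ (Real.log a) σ hx1 hx2 hx3 hσ1 hσ2 hσ3 _ ?_
    intro t ht
    rw [Finset.mem_filter] at ht
    obtain ⟨ht1, ht2⟩ := ht
    obtain ⟨_, n, hn1, hn2⟩ := hF t (Finset.mem_filter.mp ht1).1
    exact ⟨ht2, n, hn1, by rw [hn2]⟩
  have h2 : (F₂.card : ℝ) ≤ C₂ * Real.sqrt (Real.log a) := by
    refine hC₂ (Real.log a) hL F₂ ?_
    intro k hk
    rw [hF₂, Finset.mem_filter] at hk
    obtain ⟨hk1, hk2⟩ := hk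
    obtain ⟨hk3, n, hn1, hn2⟩ := hF k hk1
    exact ⟨hk3, not_le.mp hk2, n, hn1, by rw [hn2]⟩
  rw [hcard]
  push_cast
  linarith

end Pool.Agent.Results.MP_600e5a_nt.SqrtBound
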